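import Pool.Agent.H20.RT.Stmts

/-!
Row S5 of board rt: one explicit parametric step of the RATS map.
-/

set_option autoImplicit false

namespace Pool.RT.H80

open List

theorem rep_eq (k d : ℕ) : 9 * Nat.ofDigits 10 (List.replicate k d) + d = d * 10 ^ k := by
  induction k with
  | zero => simp
  | succ k ih =>
    rw [List.replicate_succ, Nat.ofDigits_cons, pow_succ]
    nlinarith [ih]

theorem S5_thm (h : STPStmt) : S5Stmt := by
  intro a b
  have hu : wl 1 0 0 0 0 0 (a + b + 1) (b + 2) 0 =
      List.replicate (b + 2) 8 ++ (List.replicate (a + b + 1) 7 ++ [1]) := by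
    simp [wl]
  have hW : Wd 1 0 0 0 0 0 (a + b + 1) (b + 2) 0 = Nat.ofDigits 10
      (List.replicate (b + 2) 8 ++ (List.replicate (a + b + 1) 7 ++ [1])) := by
    rw [Wd, hu]
  rw [hW]
  refine h _ ([9, 5] ++ (List.replicate b 6 ++ (List.replicate a 5 ++
    (List.replicate (b + 1) 6 ++ [0, 1])))) _ _ _ _ _ _ _ _ _ ?_ ?_ ?_ ?_ ?_ ?_ ?_ ?_ ?_ ?_ ?_ ?_
  · intro x hx
    simp only [List.mem_append, List.mem_replicate, List.mem_cons, List.not_mem_nil, or_false] at hx
    omega
  · intro x hx
    simp only [List.mem_append, List.mem_replicate, List.mem_cons, List.not_mem_nil, or_false] at hx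
    omega
  · have h1 := rep_eq (b + 2) 8
    have h2 := rep_eq (a + b + 1) 7
    have h3 := rep_eq b 6
    have h4 := rep_eq a 5
    have h5 := rep_eq (b + 1) 6
    simp only [List.reverse_append, List.reverse_replicate, List.reverse_cons, List.reverse_nil,
      List.nil_append, Nat.ofDigits_append, List.length_append, List.length_replicate,
      List.length_cons, List.length_nil, Nat.ofDigits_cons, Nat.ofDigits_nil]
    generalize Nat.ofDigits 10 (List.replicate (b + 2) 8) = p at *
    generalize Nat.ofDigits 10 (List.replicate (a + b + 1) 7) = q at *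
    generalize Nat.ofDigits 10 (List.replicate b 6) = r at *
    generalize Nat.ofDigits 10 (List.replicate a 5) = s at *
    generalize Nat.ofDigits 10 (List.replicate (b + 1) 6) = t at *
    simp only [pow_add, pow_one, pow_zero] at *
    generalize (10 : ℕ) ^ a = X at *
    generalize (10 : ℕ) ^ b = Y at *
    zify at *
    have key : ∀ A B : ℤ, 9 * A = 9 * B → A = B := by intro A B hAB; omega
    apply key
    linear_combination (1 + 100 * X * Y) * h1 + (100 * Y + 10) * h2 - 100 * h3 - 100 * Y * h4
      - 100 * X * Y * h5
  all_goals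
    simp only [List.count_append, List.count_cons, List.count_replicate, List.count_nil]
    simp
  all_goals omega

end Pool.RT.H80

namespace Pool.RT

theorem S5_thm (h : STPStmt) : S5Stmt := H80.S5_thm h

end Pool.RT
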